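import Pool.Agent.Work.MP_4e33a2_an.Dom

/-! Former hand-in (the statement is the reflexive version without its first clause).
A positive compact quasinilpotent operator on a Banach lattice with a countable unconditional
basis of atoms that is not dominated by, in particular not equal to, any commutator of positive
operators one of which is compact. -/

namespace Pool.Agent.Work.MP_4e33a2_an.Parked.NotDominated

open Pool.Agent.Work.MP_4e33a2_an

theorem result : ∃ (E : Type) (_ : NormedAddCommGroup E) (_ : Lattice E) (_ : HasSolidNorm E)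
    (_ : IsOrderedAddMonoid E) (_ : NormedSpace ℝ E) (_ : PosSMulMono ℝ E) (_ : CompleteSpace E)
    (I : Type) (_ : Countable I) (e : I → E) (c : I → E →L[ℝ] ℝ) (C : E →L[ℝ] E),
    (∀ x, HasSum (fun i => c i x • e i) x) ∧ (∀ i, c i (e i) = 1) ∧
    (∀ i j, i ≠ j → c i (e j) = 0) ∧ (∀ x, 0 ≤ x ↔ ∀ i, 0 ≤ c i x) ∧
    (∀ x, 0 ≤ x → 0 ≤ C x) ∧ IsCompactOperator C ∧
    Filter.Tendsto (fun n : ℕ => ‖C ^ n‖ ^ (1 / (n : ℝ))) Filter.atTop (nhds 0) ∧
    ∀ A B : E →L[ℝ] E, (∀ x, 0 ≤ x → 0 ≤ A x) → (∀ x, 0 ≤ x → 0 ≤ B x) →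
      (IsCompactOperator A ∨ IsCompactOperator B) →
      ¬ ∀ x, 0 ≤ x → C x ≤ A (B x) - B (A x) := by
  obtain ⟨β, hβ⟩ := counterexample_dom
  exact ⟨Sp β, inferInstance, inferInstance, inferInstance, inferInstance, inferInstance,
    inferInstance, inferInstance, Σ m, (β m).V, inferInstance, Sp.e, Sp.co, Sp.op β,
    Sp.hasSum_basis, (Sp.atomic β).co_self, (Sp.atomic β).co_ne, (Sp.atomic β).nonneg_iff,
    Sp.op_pos, Sp.op_compact, Sp.op_qn, hβ⟩

end Pool.Agent.Work.MP_4e33a2_an.Parked.NotDominated
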